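import Pool.Agent.W622.BK.Stm

set_option autoImplicit false

namespace Pool.Agent.W962.BK

open Module Pool.Agent.W622.BK

universe u

attribute [local instance 100] LieRing.ofAssociativeRing

section Gen

variable {k : Type u} [Field k] {E : Type u} [AddCommGroup E] [Module k E]

/-- `x ⊗ y` -/
noncomputable def tn (x y : E →ₗ[k] k) : E →ₗ[k] E →ₗ[k] k := x.smulRight y

theorem tn_apply (x y : E →ₗ[k] k) (a e : E) : tn x y a e = x a * y e := by
  simp [tn]

theorem tn_add (x y z : E →ₗ[k] k) : tn x (y + z) = tn x y + tn x z := by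
  ext a e
  simp [tn_apply, mul_add]

theorem tn_smul (x y : E →ₗ[k] k) (c : k) : tn x (c • y) = c • tn x y := by
  ext a e
  simp [tn_apply]
  ring

theorem msub {M' : Type u} [AddCommGroup M'] [Module k M']
    (f : (E →ₗ[k] E →ₗ[k] k) →ₗ[k] M') (a b : E →ₗ[k] E →ₗ[k] k) : f (a - b) = f a - f b := by
  have h : a - b = a + (-1 : k) • b := by
    ext x y
    simp only [LinearMap.sub_apply, LinearMap.add_apply, LinearMap.smul_apply, smul_eq_mul]
    ring
  rw [h, map_add, map_smul, neg_one_smul, sub_eq_add_neg]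

/-- `x ⊗ ψ` -/
def lt (x : E →ₗ[k] k) : (E →ₗ[k] E →ₗ[k] k) →ₗ[k] (E → E → E → k) where
  toFun ψ := fun a e e' => x a * ψ e e'
  map_add' ψ ψ' := by
    funext a e e'
    simp only [LinearMap.add_apply, Pi.add_apply, mul_add]
  map_smul' c ψ := by
    funext a e e'
    simp only [LinearMap.smul_apply, Pi.smul_apply, smul_eq_mul, RingHom.id_apply]
    ring

/-- `β ⊗ z` -/
def rt (β : E →ₗ[k] E →ₗ[k] k) (z : E →ₗ[k] k) : E → E → E → k := fun a e e' => β a e * z e'

/-- the space of decomposable trilinear functions -/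
def D3 (R : Submodule k (E →ₗ[k] E →ₗ[k] k)) (X : Submodule k (E →ₗ[k] k)) :
    Submodule k (E → E → E → k) where
  carrier := {t | Dec R X t}
  add_mem' := by
    rintro t t' ⟨s, p, h1, h2, h3, h4⟩ ⟨s', p', h1', h2', h3', h4'⟩
    refine ⟨s + s', p + p', fun a e e' => ?_, fun e' => ?_, fun a => ?_, fun e e' => ?_⟩
    · rw [Pi.add_apply, Pi.add_apply, Pi.add_apply, h1, h1']
      simp only [LinearMap.add_apply]
      ring
    · have : (s + s').compr₂ (LinearMap.applyₗ e') =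
          s.compr₂ (LinearMap.applyₗ e') + s'.compr₂ (LinearMap.applyₗ e') := by
        ext a e
        simp
      rw [this]
      exact Submodule.add_mem _ (h2 e') (h2' e')
    · exact Submodule.add_mem _ (h3 a) (h3' a)
    · have : ((p + p').flip e).flip e' = (p.flip e).flip e' + (p'.flip e).flip e' := by
        ext a
        simp
      rw [this]
      exact Submodule.add_mem _ (h4 e e') (h4' e e')
  zero_mem' := by
    refine ⟨0, 0, fun a e e' => ?_, fun e' => ?_, fun a => ?_, fun e e' => ?_⟩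
    · simp
    · have : (0 : E →ₗ[k] E →ₗ[k] E →ₗ[k] k).compr₂ (LinearMap.applyₗ e') = 0 := by
        ext a e
        simp
      rw [this]
      exact Submodule.zero_mem _
    · exact Submodule.zero_mem _
    · have : ((0 : E →ₗ[k] E →ₗ[k] E →ₗ[k] k).flip e).flip e' = 0 := by
        ext a
        simp
      rw [this]
      exact Submodule.zero_mem _
  smul_mem' := by
    rintro c t ⟨s, p, h1, h2, h3, h4⟩
    refine ⟨c • s, c • p, fun a e e' => ?_, fun e' => ?_, fun a => ?_, fun e e' => ?_⟩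
    · rw [Pi.smul_apply, Pi.smul_apply, Pi.smul_apply, h1]
      simp only [LinearMap.smul_apply, smul_eq_mul]
      ring
    · have : (c • s).compr₂ (LinearMap.applyₗ e') = c • s.compr₂ (LinearMap.applyₗ e') := by
        ext a e
        simp
      rw [this]
      exact Submodule.smul_mem _ _ (h2 e')
    · exact Submodule.smul_mem _ _ (h3 a)
    · have : ((c • p).flip e).flip e' = c • (p.flip e).flip e' := by
        ext a
        simp
      rw [this]
      exact Submodule.smul_mem _ _ (h4 e e')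

theorem mem_D3 {R : Submodule k (E →ₗ[k] E →ₗ[k] k)} {X : Submodule k (E →ₗ[k] k)}
    {t : E → E → E → k} : t ∈ D3 R X ↔ Dec R X t := Iff.rfl

theorem lt_mem (R : Submodule k (E →ₗ[k] E →ₗ[k] k)) (X : Submodule k (E →ₗ[k] k))
    (x : E →ₗ[k] k) (hx : x ∈ X) : R ≤ (D3 R X).comap (lt x) := by
  intro ψ hψ
  show Dec R X (lt x ψ)
  refine ⟨0, x.smulRight ψ, fun a e e' => ?_, fun e' => ?_, fun a => ?_, fun e e' => ?_⟩
  · simp [lt]
  · have : (0 : E →ₗ[k] E →ₗ[k] E →ₗ[k] k).compr₂ (LinearMap.applyₗ e') = 0 := by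
      ext a e
      simp
    rw [this]
    exact Submodule.zero_mem _
  · exact Submodule.smul_mem _ _ hψ
  · have : ((x.smulRight ψ).flip e).flip e' = (ψ e e') • x := by
      ext a
      simp [mul_comm]
    rw [this]
    exact Submodule.smul_mem _ _ hx

theorem rt_mem (R : Submodule k (E →ₗ[k] E →ₗ[k] k)) (X : Submodule k (E →ₗ[k] k))
    (β : E →ₗ[k] E →ₗ[k] k) (hβ : β ∈ Rx R X) (z : E →ₗ[k] k) : rt β z ∈ D3 R X := by
  refine ⟨β.compr₂ (LinearMap.toSpanSingleton k (E →ₗ[k] k) z), 0, fun a e e' => ?_,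
    fun e' => ?_, fun a => ?_, fun e e' => ?_⟩
  · simp [rt]
  · have : (β.compr₂ (LinearMap.toSpanSingleton k (E →ₗ[k] k) z)).compr₂
        (LinearMap.applyₗ e') = (z e') • β := by
      ext a e
      simp [mul_comm]
    rw [this]
    exact Submodule.smul_mem _ _ hβ
  · exact Submodule.zero_mem _
  · have : ((0 : E →ₗ[k] E →ₗ[k] E →ₗ[k] k).flip e).flip e' = 0 := by
      ext a
      simp
    rw [this]
    exact Submodule.zero_mem _

theorem rt_add_right (β : E →ₗ[k] E →ₗ[k] k) (z z' : E →ₗ[k] k) :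
    rt β (z + z') = rt β z + rt β z' := by
  funext a e e'
  simp [rt, mul_add]

theorem rt_smul_right (β : E →ₗ[k] E →ₗ[k] k) (c : k) (z : E →ₗ[k] k) :
    rt β (c • z) = c • rt β z := by
  funext a e e'
  simp only [rt, LinearMap.smul_apply, Pi.smul_apply, smul_eq_mul]
  ring

theorem rt_add_left (β β' : E →ₗ[k] E →ₗ[k] k) (z : E →ₗ[k] k) :
    rt (β + β') z = rt β z + rt β' z := by
  funext a e e'
  simp only [rt, LinearMap.add_apply, Pi.add_apply]
  ring

theorem rt_smul_left (β : E →ₗ[k] E →ₗ[k] k) (c : k) (z : E →ₗ[k] k) :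
    rt (c • β) z = c • rt β z := by
  funext a e e'
  simp only [rt, LinearMap.smul_apply, Pi.smul_apply, smul_eq_mul]
  ring

theorem rt_sub_left (β β' : E →ₗ[k] E →ₗ[k] k) (z : E →ₗ[k] k) :
    rt (β - β') z = rt β z - rt β' z := by
  funext a e e'
  simp only [rt, LinearMap.sub_apply, Pi.sub_apply]
  ring

theorem lt_tn (x y z : E →ₗ[k] k) : lt x (tn y z) = rt (tn x y) z := by
  funext a e e'
  show x a * tn y z e e' = tn x y a e * z e'
  rw [tn_apply, tn_apply, mul_assoc]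

variable {Q2 Q3 : Type u} [AddCommGroup Q2] [Module k Q2] [AddCommGroup Q3] [Module k Q3]
  (q2 : (E →ₗ[k] E →ₗ[k] k) →ₗ[k] Q2) (s2 : Q2 →ₗ[k] (E →ₗ[k] E →ₗ[k] k))
  (q3 : (E → E → E → k) →ₗ[k] Q3)

/-- the operator of `x` -/
noncomputable def Lo (x : E →ₗ[k] k) : Module.End k (k × (E →ₗ[k] k) × Q2 × Q3) where
  toFun w := (0, w.1 • x, q2 (tn x w.2.1), q3 (lt x (s2 w.2.2.1)))
  map_add' w w' := by
    refine Prod.ext ?_ (Prod.ext ?_ (Prod.ext ?_ ?_))
    · simp
    · simp [add_smul]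
    · simp only [Prod.snd_add, Prod.fst_add, tn_add, map_add]
    · simp only [Prod.snd_add, Prod.fst_add, map_add]
  map_smul' c w := by
    refine Prod.ext ?_ (Prod.ext ?_ (Prod.ext ?_ ?_))
    · simp
    · simp [mul_smul]
    · simp only [Prod.smul_snd, Prod.smul_fst, tn_smul, map_smul, RingHom.id_apply]
    · simp only [Prod.smul_snd, Prod.smul_fst, map_smul, RingHom.id_apply]

theorem Lo_apply (x : E →ₗ[k] k) (w : k × (E →ₗ[k] k) × Q2 × Q3) :
    Lo q2 s2 q3 x w = (0, w.1 • x, q2 (tn x w.2.1), q3 (lt x (s2 w.2.2.1))) := rfl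

/-- the operator of a tensor of degree two -/
def Bo : (E →ₗ[k] E →ₗ[k] k) →ₗ[k] Module.End k (k × (E →ₗ[k] k) × Q2 × Q3) where
  toFun β :=
    { toFun := fun w => (0, 0, w.1 • q2 β, q3 (rt β w.2.1))
      map_add' := fun w w' => by
        refine Prod.ext ?_ (Prod.ext ?_ (Prod.ext ?_ ?_))
        · simp
        · simp
        · simp only [Prod.snd_add, Prod.fst_add, add_smul]
        · simp only [Prod.snd_add, Prod.fst_add, rt_add_right, map_add]
      map_smul' := fun c w => by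
        refine Prod.ext ?_ (Prod.ext ?_ (Prod.ext ?_ ?_))
        · simp
        · simp
        · simp only [Prod.smul_snd, Prod.smul_fst, smul_eq_mul, mul_smul, RingHom.id_apply]
        · simp only [Prod.smul_snd, Prod.smul_fst, rt_smul_right, map_smul, RingHom.id_apply] }
  map_add' β β' := by
    refine LinearMap.ext fun w => Prod.ext ?_ (Prod.ext ?_ (Prod.ext ?_ ?_))
    · simp
    · simp
    · simp only [LinearMap.coe_mk, AddHom.coe_mk, LinearMap.add_apply, Prod.snd_add,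
        Prod.fst_add, map_add, smul_add]
    · simp only [LinearMap.coe_mk, AddHom.coe_mk, LinearMap.add_apply, Prod.snd_add,
        map_add, rt_add_left]
  map_smul' c β := by
    refine LinearMap.ext fun w => Prod.ext ?_ (Prod.ext ?_ (Prod.ext ?_ ?_))
    · simp
    · simp
    · simp only [LinearMap.coe_mk, AddHom.coe_mk, LinearMap.smul_apply, Prod.smul_snd,
        Prod.smul_fst, map_smul, RingHom.id_apply, smul_comm w.1 c]
    · simp only [LinearMap.coe_mk, AddHom.coe_mk, LinearMap.smul_apply, Prod.smul_snd,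
        map_smul, RingHom.id_apply, rt_smul_left]

theorem Bo_apply (β : E →ₗ[k] E →ₗ[k] k) (w : k × (E →ₗ[k] k) × Q2 × Q3) :
    Bo q2 q3 β w = (0, 0, w.1 • q2 β, q3 (rt β w.2.1)) := rfl

/-- compatibility -/
def Com (X : Submodule k (E →ₗ[k] k)) : Prop :=
  ∀ x ∈ X, ∀ ψ, q3 (lt x (s2 (q2 ψ))) = q3 (lt x ψ)

theorem lie_Lo {X : Submodule k (E →ₗ[k] k)} (hC : Com q2 s2 q3 X) (x y : E →ₗ[k] k)
    (hx : x ∈ X) (hy : y ∈ X) :
    ⁅Lo q2 s2 q3 x, Lo q2 s2 q3 y⁆ = Bo q2 q3 (tn x y - tn y x) := by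
  refine LinearMap.ext fun w => ?_
  have hbr : ⁅Lo q2 s2 q3 x, Lo q2 s2 q3 y⁆ =
      Lo q2 s2 q3 x * Lo q2 s2 q3 y - Lo q2 s2 q3 y * Lo q2 s2 q3 x := rfl
  rw [hbr, LinearMap.sub_apply, Module.End.mul_apply,
    Module.End.mul_apply, Bo_apply, Lo_apply, Lo_apply, Lo_apply, Lo_apply]
  refine Prod.ext ?_ (Prod.ext ?_ (Prod.ext ?_ ?_))
  · simp
  · simp
  · have hs : q2 (tn x y - tn y x) = q2 (tn x y) - q2 (tn y x) := msub q2 _ _
    simp only [Prod.snd_sub, Prod.fst_sub, tn_smul, map_smul]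
    rw [hs, smul_sub]
  · simp only [Prod.snd_sub]
    rw [hC x hx, hC y hy, lt_tn, lt_tn, ← map_sub, rt_sub_left]

theorem Bo_zero (β : E →ₗ[k] E →ₗ[k] k) (h1 : q2 β = 0) (h2 : ∀ z, q3 (rt β z) = 0) :
    Bo q2 q3 β = 0 := by
  refine LinearMap.ext fun w => ?_
  rw [Bo_apply, h1, h2, smul_zero]
  rfl

theorem lie_Bo_Lo {X : Submodule k (E →ₗ[k] k)} (hC : Com q2 s2 q3 X)
    (β : E →ₗ[k] E →ₗ[k] k) (x : E →ₗ[k] k) (hx : x ∈ X) :
    (⁅Bo q2 q3 β, Lo q2 s2 q3 x⁆ ((1, 0, 0, 0) : k × (E →ₗ[k] k) × Q2 × Q3)).2.2.2 =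
      q3 (rt β x - lt x β) := by
  have hbr : ⁅Bo q2 q3 β, Lo q2 s2 q3 x⁆ =
      Bo q2 q3 β * Lo q2 s2 q3 x - Lo q2 s2 q3 x * Bo q2 q3 β := rfl
  rw [hbr, LinearMap.sub_apply, Module.End.mul_apply,
    Module.End.mul_apply, Bo_apply, Lo_apply, Lo_apply, Bo_apply]
  simp only [Prod.snd_sub, one_smul, map_sub]
  rw [hC x hx]

end Gen

/-- quotients -/
theorem exQ (k : Type u) [Field k] (M : Type u) [AddCommGroup M] [Module k M]
    (S : Submodule k M) : ∃ (Q : Type u) (_ : AddCommGroup Q) (_ : Module k Q) (f : M →ₗ[k] Q)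
      (s : Q →ₗ[k] M), (∀ m, f m = 0 ↔ m ∈ S) ∧ ∀ q, f (s q) = q := by
  obtain ⟨s, hs⟩ := LinearMap.exists_rightInverse_of_surjective S.mkQ (S.range_mkQ)
  refine ⟨M ⧸ S, inferInstance, inferInstance, S.mkQ, s, fun m => ?_, fun q => ?_⟩
  · rw [Submodule.mkQ_apply, Submodule.Quotient.mk_eq_zero]
  · exact LinearMap.congr_fun hs q

section LiePart

variable {k : Type u} [Field k] {L : Type u} [LieRing L] [LieAlgebra k L]
variable {E : Type u} [AddCommGroup E] [Module k E] [FiniteDimensional k E]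

/-- `Br j` as a linear map -/
noncomputable def Brl (j : (E →ₗ[k] k) →ₗ[k] L) : (E →ₗ[k] E →ₗ[k] k) →ₗ[k] L where
  toFun β := Br j β
  map_add' a b := by
    unfold Br
    rw [← Finset.sum_add_distrib]
    refine Finset.sum_congr rfl fun i _ => ?_
    rw [LinearMap.add_apply, map_add, lie_add]
  map_smul' c a := by
    unfold Br
    rw [RingHom.id_apply, Finset.smul_sum]
    refine Finset.sum_congr rfl fun i _ => ?_
    rw [LinearMap.smul_apply, map_smul, lie_smul]

theorem Brl_apply (j : (E →ₗ[k] k) →ₗ[k] L) (β : E →ₗ[k] E →ₗ[k] k) : Brl j β = Br j β := rfl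

theorem Br_tn (j : (E →ₗ[k] k) →ₗ[k] L) (x y : E →ₗ[k] k) : Br j (tn x y) = ⁅j x, j y⁆ := by
  unfold Br
  have h : x = ∑ i, x (finBasis k E i) • (finBasis k E).coord i :=
    ((finBasis k E).sum_dual_apply_smul_coord x).symm
  conv_rhs => rw [h, map_sum, sum_lie]
  refine Finset.sum_congr rfl fun i _ => ?_
  rw [map_smul, smul_lie]
  have h2 : tn x y (finBasis k E i) = x (finBasis k E i) • y := by
    simp [tn]
  rw [h2, map_smul, lie_smul]

theorem Br3_expand (j : (E →ₗ[k] k) →ₗ[k] L) (κ : E →ₗ[k] E →ₗ[k] E →ₗ[k] k) {m : ℕ}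
    (x : Fin m → E →ₗ[k] k) (c : Fin m × Fin m × Fin m → k)
    (hκe : ∀ a e e', κ a e e' = ∑ q : Fin m × Fin m × Fin m,
      c q * (x q.1 a * x q.2.1 e * x q.2.2 e')) :
    Br3 j κ = ∑ q, c q • ⁅⁅j (x q.1), j (x q.2.1)⁆, j (x q.2.2)⁆ := by
  have h1 : ∀ e', κ.compr₂ (LinearMap.applyₗ e') =
      ∑ q, (c q * x q.2.2 e') • tn (x q.1) (x q.2.1) := by
    intro e'
    ext a e
    rw [LinearMap.sum_apply, LinearMap.sum_apply, LinearMap.compr₂_apply]
    show κ a e e' = _
    rw [hκe]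
    refine Finset.sum_congr rfl fun q _ => ?_
    rw [LinearMap.smul_apply, LinearMap.smul_apply, tn_apply, smul_eq_mul]
    ring
  have h2 : ∀ e', Br j (κ.compr₂ (LinearMap.applyₗ e')) =
      ∑ q, (c q * x q.2.2 e') • ⁅j (x q.1), j (x q.2.1)⁆ := by
    intro e'
    rw [h1, ← Brl_apply, map_sum]
    refine Finset.sum_congr rfl fun q _ => ?_
    rw [map_smul, Brl_apply, Br_tn]
  unfold Br3
  calc ∑ i, ⁅Br j (κ.compr₂ (LinearMap.applyₗ (finBasis k E i))), j ((finBasis k E).coord i)⁆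
      = ∑ i, ∑ q, (c q * x q.2.2 (finBasis k E i)) •
          ⁅⁅j (x q.1), j (x q.2.1)⁆, j ((finBasis k E).coord i)⁆ := by
        refine Finset.sum_congr rfl fun i _ => ?_
        rw [h2, sum_lie]
        refine Finset.sum_congr rfl fun q _ => ?_
        rw [smul_lie]
    _ = ∑ q, ∑ i, (c q * x q.2.2 (finBasis k E i)) •
          ⁅⁅j (x q.1), j (x q.2.1)⁆, j ((finBasis k E).coord i)⁆ := Finset.sum_comm
    _ = _ := by
        refine Finset.sum_congr rfl fun q _ => ?_
        have h : x q.2.2 = ∑ i, x q.2.2 (finBasis k E i) • (finBasis k E).coord i :=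
          ((finBasis k E).sum_dual_apply_smul_coord (x q.2.2)).symm
        conv_rhs => rw [h, map_sum, lie_sum, Finset.smul_sum]
        refine Finset.sum_congr rfl fun i _ => ?_
        rw [map_smul, lie_smul, mul_smul]

end LiePart

theorem t_REP : S_REP.{u} := by
  intro k _ L _ _ E _ _ _ j X h2 hj hq κ hκ h3 hs2 hs1 hBr
  classical
  obtain ⟨m, b, hb⟩ := hq
  let eq := Submodule.equivMapOfInjective j hj X
  let b' : Basis (Fin m) k X := b.map eq.symm
  have hjx : ∀ t, j (b' t : E →ₗ[k] k) = (b t : L) := by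
    intro t
    have h : eq (b' t) = b t := by
      show eq (b.map eq.symm t) = b t
      rw [Basis.map_apply, LinearEquiv.apply_symm_apply]
    rw [← h]
    exact (Submodule.coe_equivMapOfInjective_apply j hj X (b' t)).symm
  have hdual : ∀ t : Fin m, ∃ e : E, ∀ (f : E →ₗ[k] k) (hf : f ∈ X),
      f e = b'.coord t ⟨f, hf⟩ := by
    intro t
    obtain ⟨g, hg⟩ := LinearMap.exists_extend (b'.coord t)
    refine ⟨(Module.evalEquiv k E).symm g, fun f hf => ?_⟩
    rw [Module.apply_evalEquiv_symm_apply]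
    exact LinearMap.congr_fun hg ⟨f, hf⟩
  choose ev hev using hdual
  have hexp : ∀ f ∈ X, ∀ a, f a = ∑ t, f (ev t) * (b' t : E →ₗ[k] k) a := by
    intro f hf a
    have h := b'.sum_repr ⟨f, hf⟩
    have h' := congrArg (fun z : X => (z : E →ₗ[k] k) a) h
    simp only [Submodule.coe_sum, LinearMap.sum_apply, Submodule.coe_smul,
      LinearMap.smul_apply, smul_eq_mul] at h'
    rw [← h']
    refine Finset.sum_congr rfl fun t _ => ?_
    rw [hev t f hf, Basis.coord_apply]
  set x : Fin m → E →ₗ[k] k := fun t => (b' t : E →ₗ[k] k) with hx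
  set c : Fin m × Fin m × Fin m → k := fun q => κ (ev q.1) (ev q.2.1) (ev q.2.2) with hc
  have hκe : ∀ a e e', κ a e e' = ∑ q : Fin m × Fin m × Fin m,
      c q * (x q.1 a * x q.2.1 e * x q.2.2 e') := by
    intro a e e'
    have s1 : κ a e e' = ∑ s, κ (ev s) e e' * x s a := hexp _ (hs1 e e') a
    rw [s1, Fintype.sum_prod_type]
    refine Finset.sum_congr rfl fun s _ => ?_
    have s2 : κ (ev s) e e' = ∑ t, κ (ev s) (ev t) e' * x t e := hexp _ (hs2 (ev s) e') e
    rw [s2, Fintype.sum_prod_type, Finset.sum_mul]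
    refine Finset.sum_congr rfl fun t _ => ?_
    have s3 : κ (ev s) (ev t) e' = ∑ v, κ (ev s) (ev t) (ev v) * x v e' :=
      hexp _ (h3 (ev s) (ev t)) e'
    rw [s3, Finset.sum_mul, Finset.sum_mul]
    refine Finset.sum_congr rfl fun v _ => ?_
    simp only [hc]
    ring
  set Z : FreeLieAlgebra k (Fin m) := ∑ q : Fin m × Fin m × Fin m, c q •
    ⁅⁅FreeLieAlgebra.of k q.1, FreeLieAlgebra.of k q.2.1⁆, FreeLieAlgebra.of k q.2.2⁆ with hZ
  have hZ0 : freeTo k L (fun i => (b i : L)) Z = 0 := by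
    rw [← hBr, Br3_expand j κ x c hκe, hZ]
    unfold freeTo
    rw [map_sum]
    refine Finset.sum_congr rfl fun q _ => ?_
    rw [map_smul, LieHom.map_lie, LieHom.map_lie, FreeLieAlgebra.lift_of_apply,
      FreeLieAlgebra.lift_of_apply, FreeLieAlgebra.lift_of_apply, hjx, hjx, hjx]
  obtain ⟨Q2, i1, i2, q2, s2, hq2, hs2'⟩ := exQ k (E →ₗ[k] E →ₗ[k] k) (Rj j)
  obtain ⟨Q3, i3, i4, q3, s3', hq3, hs3'⟩ := exQ k (E → E → E → k) (D3 (Rj j) X)
  have hC : Com q2 s2 q3 X := by
    intro y hy ψ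
    rw [← sub_eq_zero, ← map_sub, ← map_sub, hq3]
    apply lt_mem (Rj j) X y hy
    rw [← hq2, map_sub, hs2', sub_self]
  have hxX : ∀ t, x t ∈ X := fun t => (b' t).2
  set ρ : FreeLieAlgebra k (Fin m) →ₗ⁅k⁆ Module.End k (k × (E →ₗ[k] k) × Q2 × Q3) :=
    FreeLieAlgebra.lift k (fun t => Lo q2 s2 q3 (x t)) with hρ
  have hρof : ∀ t, ρ (FreeLieAlgebra.of k t) = Lo q2 s2 q3 (x t) := by
    intro t
    rw [hρ, FreeLieAlgebra.lift_of_apply]
  have hle : LieSubmodule.lieSpan k (FreeLieAlgebra k (Fin m))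
        {r : FreeLieAlgebra k (Fin m) | r ∈ degTwo k m ∧ freeTo k L (fun i => (b i : L)) r = 0} ≤
      ρ.ker := by
    rw [LieSubmodule.lieSpan_le]
    rintro r ⟨hr1, hr2⟩
    show r ∈ ρ.ker
    rw [LieHom.mem_ker]
    obtain ⟨d, hd⟩ := (Submodule.mem_span_range_iff_exists_fun k).1 hr1
    have hρr : ρ r = Bo q2 q3 (∑ p : Fin m × Fin m, d p •
        (tn (x p.1) (x p.2) - tn (x p.2) (x p.1))) := by
      rw [← hd, map_sum, map_sum]
      refine Finset.sum_congr rfl fun p _ => ?_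
      rw [map_smul, LieHom.map_lie, hρof, hρof, lie_Lo q2 s2 q3 hC _ _ (hxX _) (hxX _), map_smul]
    rw [hρr]
    have hRx : (∑ p : Fin m × Fin m, d p • (tn (x p.1) (x p.2) - tn (x p.2) (x p.1))) ∈
        Rx (Rj j) X := ?_
    · exact Bo_zero q2 q3 _ ((hq2 _).2 hRx.1) fun z => (hq3 _).2 (rt_mem (Rj j) X _ hRx z)
    refine ⟨⟨fun e => ?_, ?_⟩, fun e => ?_⟩
    · rw [LinearMap.sum_apply, LinearMap.sum_apply]
      refine Finset.sum_eq_zero fun p _ => ?_
      rw [LinearMap.smul_apply, LinearMap.smul_apply, LinearMap.sub_apply, LinearMap.sub_apply,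
        tn_apply, tn_apply, mul_comm (x p.2 e), sub_self, smul_zero]
    · rw [← Brl_apply, map_sum]
      have h4 : ∀ p : Fin m × Fin m, Brl j (d p • (tn (x p.1) (x p.2) - tn (x p.2) (x p.1))) =
          (2 : k) • (d p • ⁅(b p.1 : L), (b p.2 : L)⁆) := by
        intro p
        have h4' : Brl j (tn (x p.1) (x p.2) - tn (x p.2) (x p.1)) =
            Brl j (tn (x p.1) (x p.2)) - Brl j (tn (x p.2) (x p.1)) :=
          msub (Brl j) _ _
        have h5' : ⁅(b p.2 : L), (b p.1 : L)⁆ = -⁅(b p.1 : L), (b p.2 : L)⁆ :=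
          (lie_skew _ _).symm
        rw [map_smul, h4', Brl_apply, Brl_apply, Br_tn, Br_tn, hjx, hjx, h5', sub_neg_eq_add,
          two_smul, smul_add]
      rw [Finset.sum_congr rfl fun p _ => h4 p, ← Finset.smul_sum]
      have h5 : ∑ p : Fin m × Fin m, d p • ⁅(b p.1 : L), (b p.2 : L)⁆ = 0 := by
        rw [← hr2, ← hd]
        unfold freeTo
        rw [map_sum]
        refine Finset.sum_congr rfl fun p _ => ?_
        rw [map_smul, LieHom.map_lie, FreeLieAlgebra.lift_of_apply,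
          FreeLieAlgebra.lift_of_apply]
      rw [h5, smul_zero]
    · rw [LinearMap.sum_apply]
      refine Submodule.sum_mem _ fun p _ => ?_
      rw [LinearMap.smul_apply, LinearMap.sub_apply]
      refine Submodule.smul_mem _ _ (Submodule.sub_mem _ ?_ ?_)
      · exact Submodule.smul_mem _ _ (b' p.2).2
      · exact Submodule.smul_mem _ _ (b' p.1).2
  have hρZ : ρ Z = 0 := by
    have h6 : Z ∈ (freeTo k L (fun i => (b i : L))).ker := by
      rw [LieHom.mem_ker]
      exact hZ0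
    have h7 := hle (hb h6)
    rw [LieHom.mem_ker] at h7
    exact h7
  have hval : q3 (∑ q : Fin m × Fin m × Fin m, c q •
      (rt (tn (x q.1) (x q.2.1) - tn (x q.2.1) (x q.1)) (x q.2.2) -
        lt (x q.2.2) (tn (x q.1) (x q.2.1) - tn (x q.2.1) (x q.1)))) = 0 := by
    have h8 : (ρ Z ((1, 0, 0, 0) : k × (E →ₗ[k] k) × Q2 × Q3)).2.2.2 = 0 := by
      rw [hρZ]
      rfl
    rw [hZ, map_sum, LinearMap.sum_apply] at h8
    rw [← h8, map_sum, Prod.snd_sum, Prod.snd_sum, Prod.snd_sum]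
    refine Finset.sum_congr rfl fun q _ => ?_
    rw [map_smul, map_smul, LieHom.map_lie, LieHom.map_lie, hρof, hρof, hρof,
      lie_Lo q2 s2 q3 hC _ _ (hxX _) (hxX _),
      LinearMap.smul_apply, Prod.smul_snd, Prod.smul_snd, Prod.smul_snd,
      lie_Bo_Lo q2 s2 q3 hC _ _ (hxX _)]
  rw [hq3] at hval
  have hfin : (fun a e e' => κ a e e' - κ e e' a) = (2 : k)⁻¹ •
      (∑ q : Fin m × Fin m × Fin m, c q •
      (rt (tn (x q.1) (x q.2.1) - tn (x q.2.1) (x q.1)) (x q.2.2) -
        lt (x q.2.2) (tn (x q.1) (x q.2.1) - tn (x q.2.1) (x q.1)))) := by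
    funext a e e'
    have hsk : ∀ a e e', κ e a e' = - κ a e e' := by
      intro a e e'
      have h9 := hκ (a + e) e'
      simp only [map_add, LinearMap.add_apply, hκ, zero_add, add_zero] at h9
      exact eq_neg_of_add_eq_zero_left h9
    have h10 : (∑ q : Fin m × Fin m × Fin m, c q •
      (rt (tn (x q.1) (x q.2.1) - tn (x q.2.1) (x q.1)) (x q.2.2) -
        lt (x q.2.2) (tn (x q.1) (x q.2.1) - tn (x q.2.1) (x q.1)))) a e e' =
        κ a e e' - κ e a e' - κ e e' a + κ e' e a := by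
      rw [hκe a e e', hκe e a e', hκe e e' a, hκe e' e a, ← Finset.sum_sub_distrib,
        ← Finset.sum_sub_distrib, ← Finset.sum_add_distrib, Finset.sum_apply, Finset.sum_apply,
        Finset.sum_apply]
      refine Finset.sum_congr rfl fun q _ => ?_
      simp only [Pi.smul_apply, Pi.sub_apply, smul_eq_mul, rt, lt, LinearMap.coe_mk,
        AddHom.coe_mk, LinearMap.sub_apply, tn_apply]
      ring
    rw [Pi.smul_apply, Pi.smul_apply, Pi.smul_apply, h10, hsk a e e', hsk e e' a, smul_eq_mul]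
    field_simp
    ring
  rw [hfin]
  exact (D3 (Rj j) X).smul_mem _ hval

end Pool.Agent.W962.BK
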